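import Pool.Agent.Helper79K.QP.C

/-!
# Q-points without the Galvin property

`κ` is given by the well-order `κ.ord.ToType`; `IsClub` is Mathlib's notion of a closed unbounded
set.

* If `κ` is inaccessible and every proper `κ`-complete filter on `κ` extends to a `κ`-complete
  ultrafilter (`κ` is `κ`-compact, for instance strongly compact), then there is a `κ`-complete
  ultrafilter extending the club filter without the Galvin property; it even contains a family of
  `2 ^ κ` sets no `κ` of which have their intersection in it.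
* If there are `κ` distinct normal ultrafilters on `κ` and some `κ`-complete ultrafilter on `κ`
  does not have the Galvin property, then there is one extending the club filter.
* For every inaccessible `κ` there is a proper `κ`-complete filter extending the club filter
  without the Galvin property.
-/

set_option autoImplicit false

open Cardinal Set

namespace Pool.Agent.Results.MP_121b2e_lc.NonGalvinQPoints

universe u

/-- `κ`-completeness of a filter -/
def Complete (κ : Cardinal.{u}) {X : Type u} (F : Filter X) : Prop :=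
  ∀ S : Set (Set X), #S < κ → (∀ s ∈ S, s ∈ F) → ⋂₀ S ∈ F

/-- The Galvin property: for all sets `A i ∈ F`, `i < κ⁺`, there is `I` of cardinality `κ` with
`⋂ i ∈ I, A i` in `F`. -/
def Galvin (κ : Cardinal.{u}) {X : Type u} (F : Filter X) : Prop :=
  ∀ A : (Order.succ κ).ord.ToType → Set X, (∀ i, A i ∈ F) →
    ∃ I : Set (Order.succ κ).ord.ToType, #I = κ ∧ (⋂ i ∈ I, A i) ∈ F

/-- A Q-point in the sense of the problem: a `κ`-complete ultrafilter containing all clubs. -/
def QPoint (κ : Cardinal.{u}) (U : Ultrafilter κ.ord.ToType) : Prop :=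
  Complete κ (U : Filter κ.ord.ToType) ∧ ∀ C : Set κ.ord.ToType, IsClub C → C ∈ U

/-- Normal ultrafilters on `κ`: `κ`-complete, containing the end segments, and every regressive
function is constant on a set of the ultrafilter. -/
def Normal (κ : Cardinal.{u}) (V : Ultrafilter κ.ord.ToType) : Prop :=
  Complete κ (V : Filter κ.ord.ToType) ∧ (∀ a, Ioi a ∈ V) ∧
    ∀ f : κ.ord.ToType → κ.ord.ToType, {x | f x < x} ∈ V → ∃ a, {x | f x = a} ∈ V

/-- Every proper `κ`-complete filter on `κ` extends to a `κ`-complete ultrafilter. -/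
def Compact (κ : Cardinal.{u}) : Prop :=
  ∀ F : Filter κ.ord.ToType, F.NeBot → Complete κ F →
    ∃ U : Ultrafilter κ.ord.ToType, Complete κ (U : Filter κ.ord.ToType) ∧ (U : Filter κ.ord.ToType) ≤ F

theorem result :
    -- compact cardinals carry Q-points without the Galvin property
    (∀ κ : Cardinal.{u}, κ.IsInaccessible → Compact κ →
      ∃ U : Ultrafilter κ.ord.ToType, QPoint κ U ∧ ¬ Galvin κ (U : Filter κ.ord.ToType) ∧
        ∃ 𝒟 : Set (Set κ.ord.ToType), #𝒟 = 2 ^ κ ∧ (∀ D ∈ 𝒟, D ∈ U) ∧
          ∀ N ⊆ 𝒟, #N = κ → ⋂₀ N ∉ U) ∧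
    -- reduction to arbitrary ultrafilters
    (∀ (κ : Cardinal.{u}) (V : κ.ord.ToType → Ultrafilter κ.ord.ToType),
      (∀ i, Normal κ (V i)) → Function.Injective V →
      ((∃ U : Ultrafilter κ.ord.ToType, QPoint κ U ∧ ¬ Galvin κ (U : Filter κ.ord.ToType)) ↔
        ∃ W : Ultrafilter κ.ord.ToType, Complete κ (W : Filter κ.ord.ToType) ∧
          ¬ Galvin κ (W : Filter κ.ord.ToType))) ∧
    -- filters, in ZFC
    (∀ κ : Cardinal.{u}, κ.IsInaccessible → ∃ F : Filter κ.ord.ToType, F.NeBot ∧ Complete κ F ∧
      (∀ C : Set κ.ord.ToType, IsClub C → C ∈ F) ∧ ¬ Galvin κ F) := by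
  refine ⟨fun κ hκ hc => ?_, fun κ V hV hinj => ⟨?_, ?_⟩, fun κ hκ => ?_⟩
  · obtain ⟨D, F, hF, hFc, hcl, hD, hN⟩ := Pool.Agent.Helper79K.QP.exists_filter hκ
    obtain ⟨U, hU, hUF⟩ := hc F hF hFc
    have hDU : ∀ Y, D Y ∈ (U : Filter κ.ord.ToType) := fun Y => hUF (hD Y)
    have hNU : ∀ N : Set (Set κ.ord.ToType), κ ≤ #N → (⋂ Y ∈ N, D Y)ᶜ ∈ (U : Filter κ.ord.ToType) :=
      fun N h => hUF (hN N h)
    refine ⟨U, ⟨hU, fun C hC => hUF (hcl C hC)⟩,
      Pool.Agent.Helper79K.QP.not_galvin_of_family inferInstance D hDU hNU, range D, ?_, ?_, ?_⟩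
    · have hκ0 : ℵ₀ ≤ κ := hκ.aleph0_lt.le
      refine le_antisymm (mk_range_le.trans (by rw [mk_set, mk_toType, card_ord])) ?_
      -- all fibres of `D` have fewer than `κ` elements
      have hfib : ∀ d : range D, #(D ⁻¹' {d.1}) < κ := by
        intro d
        by_contra hcon
        push Not at hcon
        have h1 := hNU _ hcon
        obtain ⟨Y₀, hY₀⟩ := d.2
        have h2 : (⋂ Y ∈ D ⁻¹' {d.1}, D Y) = d.1 := by
          apply Set.Subset.antisymm
          · intro x hx
            simp only [mem_iInter] at hx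
            have := hx Y₀ hY₀
            rwa [hY₀] at this
          · intro x hx
            simp only [mem_iInter]
            intro Y hY
            rw [show D Y = d.1 from hY]
            exact hx
        rw [h2] at h1
        have h3 : d.1 ∈ (U : Filter κ.ord.ToType) := by rw [← hY₀]; exact hDU Y₀
        have h4 := Filter.inter_mem h3 h1
        rw [inter_compl_self] at h4
        exact (inferInstance : (U : Filter κ.ord.ToType).NeBot).ne (Filter.empty_mem_iff_bot.1 h4)
      by_contra hlt
      push Not at hlt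
      have h5 : #(Set κ.ord.ToType) ≤ #(range D) * κ := by
        have h6 : #(Set κ.ord.ToType) = #(Σ d : range D, D ⁻¹' {d.1}) := by
          refine mk_congr ?_
          exact (Equiv.sigmaFiberEquiv (fun Y : Set κ.ord.ToType => (⟨D Y, Y, rfl⟩ : range D))).symm.trans
            (Equiv.sigmaCongrRight fun d => Equiv.subtypeEquivRight fun Y => by
              simp [Subtype.ext_iff])
        rw [h6, mk_sigma]
        calc _ ≤ sum (fun _ : range D => κ) := sum_le_sum _ _ fun d => (hfib d).le
          _ = #(range D) * κ := by simp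
      rw [mk_set, mk_toType, card_ord] at h5
      exact absurd (h5.trans_lt (mul_lt_of_lt (hκ0.trans (cantor κ).le) hlt (cantor κ))) (lt_irrefl _)
    · rintro _ ⟨Y, rfl⟩
      exact hDU Y
    · intro N hN𝒟 hNκ hcon
      have h1 : κ ≤ #(D ⁻¹' N) := by
        have h2 : N = D '' (D ⁻¹' N) := by
          rw [Set.image_preimage_eq_inter_range, Set.inter_eq_left.2 hN𝒟]
        calc κ = #N := hNκ.symm
          _ = #(D '' (D ⁻¹' N)) := by rw [← h2]
          _ ≤ _ := mk_image_le
      have h3 := hNU _ h1
      have h4 : (⋂ Y ∈ D ⁻¹' N, D Y) = ⋂₀ N := by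
        apply Set.Subset.antisymm
        · intro x hx d hd
          simp only [mem_iInter] at hx
          obtain ⟨Y, rfl⟩ := hN𝒟 hd
          exact hx Y hd
        · intro x hx
          simp only [mem_iInter]
          exact fun Y hY => hx _ hY
      rw [h4] at h3
      have h5 := Filter.inter_mem hcon h3
      rw [inter_compl_self] at h5
      exact (inferInstance : (U : Filter κ.ord.ToType).NeBot).ne (Filter.empty_mem_iff_bot.1 h5)
  · rintro ⟨U, hU, hG⟩
    exact ⟨U, hU.1, hG⟩
  · rintro ⟨W, hW, hG⟩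
    obtain ⟨U, h1, h2, h3⟩ := Pool.Agent.Helper79K.QP.sum_not_galvin W hW hG V
      (fun i => ⟨(hV i).1, (hV i).2.1, (hV i).2.2⟩) hinj
    exact ⟨U, ⟨h1, h2⟩, h3⟩
  · obtain ⟨D, F, hF, hFc, hcl, hD, hN⟩ := Pool.Agent.Helper79K.QP.exists_filter hκ
    exact ⟨F, hF, hFc, hcl, Pool.Agent.Helper79K.QP.not_galvin_of_family hF D hD hN⟩

end Pool.Agent.Results.MP_121b2e_lc.NonGalvinQPoints
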